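import Pool.Agent.D0H37.SO.Fin2

set_option autoImplicit false

/-!
# The Euler prime of a counterexample to Sorli's conjecture

Let `N = q ^ k n ^ 2` be an odd perfect number in Eulerian form with `k > 1`. Since `σ(q ^ k)` divides
`2 n ^ 2` and `k ≥ 5`, one has `q ^ 5 < 2 n ^ 2`, that is `q < 1.15 n ^ (2 / 5)`. Here we improve the
exponent `2 / 5` to `1 / 3`: we show `q ^ 3 < 73 n`.

Idea of the proof. Only `k = 5` matters. Let `D = σ(n ^ 2) / q ^ 5`, so `D σ(q ^ 5) = 2 n ^ 2`; we show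
`q ≤ 2 * 11 ^ 3 * D`. For a prime `p ∣ n` write `σ(p ^ e) = q ^ κ c` with `q ∤ c` and `p ^ e` exactly
dividing `n ^ 2`; then the sum of the `κ` is `5` and the product of the `c` is `D`. Let `p ^ b` exactly
divide `σ(q ^ 5)` and `p ^ v` exactly divide `D`, so `b + v = e`. As `p ^ b` divides `q ^ 6 - 1`, we have
`q ^ 3 ≡ ± 1` modulo `p ^ b`, and from `q ^ κ c (p - 1) = p ^ (e + 1) - 1` we get
`(c (1 - p)) ^ 3 ≡ ± 1`, so `c ^ 3` is congruent to plus or minus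
`1 + 3 p + 6 p ^ 2 + 10 p ^ 3 + 15 p ^ 4 + 21 p ^ 5` modulo `p ^ min(b, 6)`. This implies
`p ^ b ≤ 11 ^ 3 c ^ 5` if `b ≥ 2`, and for `b = 1` one has `p ≤ 2 c ^ 2`, or `p ≤ 11`, or `c = 1`; in the
last case `κ ≥ 2` and `q ^ 2 ≤ 2 p ^ (v + 1) ≤ 2 D ^ 2`. In all other cases
`q ^ κ ≤ 2 * 11 ^ 3 * c ^ 4 p ^ v` (if `κ ≥ 1`), and the product over all `p` gives
`q ^ 5 ≤ (2 * 11 ^ 3 * D) ^ 5`.
-/

namespace Pool.Agent.Results.MP_5b3ee2_nt.EulerPrimeBound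

/-- Let `N = q ^ k n ^ 2` be an odd perfect number in Eulerian form with `k > 1`. Then
`q ^ 3 < 73 n`. -/
theorem result (q k n : ℕ) (hq : q.Prime) (hk : k % 4 = 1) (hqn : q.Coprime n)
    (hodd : Odd (q ^ k * n ^ 2)) (hperf : (q ^ k * n ^ 2).Perfect) (hk1 : 1 < k) :
    q ^ 3 < 73 * n := by
  have h1 := Pool.Agent.D0H37.SO.bound2 hq hk hk1 hqn hodd hperf
  have hn : 0 < n := by
    rcases Nat.eq_zero_or_pos n with h | h
    · rw [h] at hperf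
      have := hperf.2
      simp at this
    · exact h
  have h2 : (q ^ 3) ^ 2 < (73 * n) ^ 2 := by
    have h3 : 0 < n ^ 2 := by positivity
    calc (q ^ 3) ^ 2 = q ^ 6 := by ring
      _ ≤ 4 * 11 ^ 3 * n ^ 2 := h1
      _ < (73 * n) ^ 2 := by nlinarith
  exact lt_of_pow_lt_pow_left₀ 2 (Nat.zero_le _) h2

end Pool.Agent.Results.MP_5b3ee2_nt.EulerPrimeBound
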